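import Pool.Agent.TH684.LB.Law

/-!
# Linear advice
-/

set_option autoImplicit false

namespace Pool.Agent.TH684.LB

open Pool.Agent.TH762.E2 MvPolynomial Relation

variable {D : (n : ℕ) → Set ((Fin n → ℕ) → Prop)}

/-- `D` with linear advice: for every number `N` one number `a ≤ (N + 2) ^ c` (that is, of a length
linear in the length of `N`) serves for all tuples of numbers up to `N`. -/
def Adv (D : (n : ℕ) → Set ((Fin n → ℕ) → Prop)) (n : ℕ) : Set ((Fin n → ℕ) → Prop) :=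
  {R | ∃ Q ∈ D (n + 1), ∃ c : ℕ, ∀ N : ℕ, ∃ a ≤ (N + 2) ^ c, ∀ v : Fin n → ℕ, (∀ i, v i ≤ N) →
    (R v ↔ Q (Matrix.vecCons a v))}

theorem mem_adv {n : ℕ} {R : (Fin n → ℕ) → Prop} {P : (Fin n → ℕ) × ℕ → Prop} (hP : Df D P)
    (h : ∃ c : ℕ, ∀ N : ℕ, ∃ a ≤ (N + 2) ^ c, ∀ v : Fin n → ℕ, (∀ i, v i ≤ N) →
      (R v ↔ P (v, a))) : R ∈ Adv D n := by
  obtain ⟨Q, hQ, hPQ⟩ := hP
  obtain ⟨c, h⟩ := h
  refine ⟨Q, hQ, c, fun N => ?_⟩
  obtain ⟨a, ha, h⟩ := h N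
  exact ⟨a, ha, fun v hv => (h v hv).trans (hPQ (v, a))⟩

theorem df_adv {n : ℕ} {Q : (Fin (n + 1) → ℕ) → Prop} (hQ : Q ∈ D (n + 1)) :
    Df D (fun p : (Fin n → ℕ) × ℕ => Q (Matrix.vecCons p.2 p.1)) := ⟨Q, hQ, fun _ => Iff.rfl⟩

theorem sub_adv (hD : Clo D) {n : ℕ} {R : (Fin n → ℕ) → Prop} (h : R ∈ D n) : R ∈ Adv D n :=
  mem_adv (P := fun p => R p.1) ((df_of_mem h).ren hD Rn.fst) ⟨0, fun _ => ⟨0, Nat.zero_le _,
    fun _ _ => Iff.rfl⟩⟩

theorem poly_bd {n : ℕ} (p : MvPolynomial (Fin n) ℕ) :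
    ∃ c : ℕ, ∀ N : ℕ, eval (fun _ => N) p ≤ (N + 2) ^ c := by
  induction p using MvPolynomial.induction_on with
  | C a => exact ⟨a, fun N => by
      rw [eval_C]
      exact (Nat.lt_two_pow_self.le).trans (Nat.pow_le_pow_left (by omega) a)⟩
  | add p q hp hq =>
    obtain ⟨c, hc⟩ := hp
    obtain ⟨c', hc'⟩ := hq
    refine ⟨c + c' + 1, fun N => ?_⟩
    rw [map_add]
    have h1 := hc N
    have h2 := hc' N
    have h3 : (N + 2) ^ c ≤ (N + 2) ^ (c + c') := Nat.pow_le_pow_right (by omega) (by omega)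
    have h4 : (N + 2) ^ c' ≤ (N + 2) ^ (c + c') := Nat.pow_le_pow_right (by omega) (by omega)
    rw [pow_succ]
    nlinarith
  | mul_X p i hp =>
    obtain ⟨c, hc⟩ := hp
    refine ⟨c + 1, fun N => ?_⟩
    rw [map_mul, eval_X, pow_succ]
    exact Nat.mul_le_mul (hc N) (by omega)

theorem clo_adv (hD : Clo D) : Clo (Adv D) where
  eq n p q := sub_adv hD (hD.eq n p q)
  le n p q := sub_adv hD (hD.le n p q)
  not n P hP := by
    obtain ⟨Q, hQ, c, h⟩ := hP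
    refine mem_adv ((df_adv hQ).not hD) ⟨c, fun N => ?_⟩
    obtain ⟨a, ha, h⟩ := h N
    exact ⟨a, ha, fun v hv => not_congr (h v hv)⟩
  and n P P' hP hP' := by
    obtain ⟨Q, hQ, c, h⟩ := hP
    obtain ⟨Q', hQ', c', h'⟩ := hP'
    have h1 : Df D (fun p : (Fin n → ℕ) × ℕ => Q (Matrix.vecCons (dc1 p.2) p.1)) :=
      (df_adv hQ).map hD (φ := fun p : (Fin n → ℕ) × ℕ => (p.1, dc1 p.2))
        ((Rn.fst.mp hD).pair (Fn.dc1 hD (Vr.snd.fn hD)))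
    have h2 : Df D (fun p : (Fin n → ℕ) × ℕ => Q' (Matrix.vecCons (dc2 p.2) p.1)) :=
      (df_adv hQ').map hD (φ := fun p : (Fin n → ℕ) × ℕ => (p.1, dc2 p.2))
        ((Rn.fst.mp hD).pair (Fn.dc2 hD (Vr.snd.fn hD)))
    refine mem_adv (h1.and hD h2) ⟨2 * (c + c' + 1) + 1, fun N => ?_⟩
    obtain ⟨a, ha, h⟩ := h N
    obtain ⟨a', ha', h'⟩ := h' N
    refine ⟨(a + a') * (a + a') + a, ?_, fun v hv => ?_⟩
    · have h3 : (N + 2) ^ c ≤ (N + 2) ^ (c + c') := Nat.pow_le_pow_right (by omega) (by omega)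
      have h4 : (N + 2) ^ c' ≤ (N + 2) ^ (c + c') := Nat.pow_le_pow_right (by omega) (by omega)
      have h5 : a + a' ≤ (N + 2) ^ (c + c' + 1) := by
        rw [pow_succ]
        nlinarith
      have h6 : a ≤ (N + 2) ^ (c + c' + 1) := by omega
      have h7 : 1 ≤ (N + 2) ^ (c + c' + 1) := Nat.one_le_pow _ _ (by omega)
      calc (a + a') * (a + a') + a
          ≤ (N + 2) ^ (c + c' + 1) * (N + 2) ^ (c + c' + 1) +
            (N + 2) ^ (c + c' + 1) * (N + 2) ^ (c + c' + 1) := by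
            refine Nat.add_le_add (Nat.mul_le_mul h5 h5) (h6.trans ?_)
            exact Nat.le_mul_of_pos_left _ h7
        _ = (N + 2) ^ (2 * (c + c' + 1)) * 2 := by
            rw [two_mul, pow_add]; ring
        _ ≤ (N + 2) ^ (2 * (c + c' + 1) + 1) := by
            rw [pow_succ]
            exact Nat.mul_le_mul_left _ (by omega)
    · obtain ⟨e1, e2⟩ := dc_code a a'
      show (P v ∧ P' v) ↔ (Q (Matrix.vecCons (dc1 ((a + a') * (a + a') + a)) v) ∧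
        Q' (Matrix.vecCons (dc2 ((a + a') * (a + a') + a)) v))
      rw [e1, e2]
      exact and_congr (h v hv) (h' v hv)
  ex n P p hP := by
    obtain ⟨Q, hQ, c, h⟩ := hP
    obtain ⟨m, hm⟩ := poly_bd p
    have h0 : Df D (fun r : ((Fin n → ℕ) × ℕ) × ℕ =>
        Q (Matrix.vecCons r.1.2 (Matrix.vecCons r.2 r.1.1))) := by
      have h1 : Df D (fun r : ((Fin n → ℕ) × ℕ) × ℕ =>
          Q (Matrix.vecCons r.2 (Matrix.vecCons r.1.2 r.1.1))) := ⟨Q, hQ, fun _ => Iff.rfl⟩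
      exact h1.ren hD (φ := fun r : ((Fin n → ℕ) × ℕ) × ℕ => ((r.1.1, r.2), r.1.2))
        (((Rn.fst.comp Rn.fst).pair Vr.snd).pair (Vr.snd.ren Rn.fst))
    have hp : Fn D (fun q : (Fin n → ℕ) × ℕ => eval q.1 p) :=
      (Fn.poly (Γ := Fin n → ℕ) hD p).ren hD Rn.fst
    have h1 : Df D (fun q : (Fin n → ℕ) × ℕ => ∃ x ≤ eval q.1 p,
        Q (Matrix.vecCons q.2 (Matrix.vecCons x q.1))) := h0.ex hD hp
    refine mem_adv h1 ⟨(m + 2) * c, fun N => ?_⟩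
    obtain ⟨a, ha, h⟩ := h (N + (N + 2) ^ m)
    refine ⟨a, ha.trans ?_, fun v hv => ?_⟩
    · have h3 : 1 ≤ (N + 2) ^ m := Nat.one_le_pow _ _ (by omega)
      have h2 : N + (N + 2) ^ m + 2 ≤ (N + 2) ^ (m + 2) := by
        have h4 : (N + 2) ^ m * (N + 2) ^ 2 = (N + 2) ^ m + (N + 2) ^ m * (N * N + 4 * N + 3) := by
          ring
        have h5 : 1 * (N * N + 4 * N + 3) ≤ (N + 2) ^ m * (N * N + 4 * N + 3) :=
          Nat.mul_le_mul_right _ h3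
        have h6 := Nat.zero_le (N * N)
        rw [pow_add, h4]
        linarith
      calc (N + (N + 2) ^ m + 2) ^ c ≤ ((N + 2) ^ (m + 2)) ^ c := Nat.pow_le_pow_left h2 c
        _ = (N + 2) ^ ((m + 2) * c) := (pow_mul _ _ _).symm
    · refine exists_congr fun x => and_congr_right fun hx => h _ fun i => ?_
      refine Fin.cases ?_ (fun i => ?_) i
      · have h2 : eval v p ≤ eval (fun _ => N) p := eval_mono p hv
        have h3 := hm N
        show x ≤ _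
        omega
      · have h2 := hv i
        show v i ≤ _
        omega
  ren n m ρ P hP := by
    obtain ⟨Q, hQ, c, h⟩ := hP
    refine mem_adv (P := fun p => Q (Matrix.vecCons p.2 (fun i => p.1 (ρ i)))) ?_ ⟨c, fun N => ?_⟩
    · exact (df_adv hQ).ren hD (φ := fun p : (Fin m → ℕ) × ℕ => ((fun i => p.1 (ρ i)), p.2))
        (Rn.pair (fun i => ⟨(ρ i).succ, fun _ => rfl⟩) Vr.snd)
    · obtain ⟨a, ha, h⟩ := h N
      exact ⟨a, ha, fun v hv => h _ fun i => hv _⟩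

/-! ### linear advice can be found -/

/-- The check of the advice `a`: the table `Q a t c` (is `c` reachable in at most `t` steps?) obeys the
local rules. -/
def Chk {n : ℕ} (E : ((Fin n → ℕ) × ℕ) × ℕ → Prop) (s M : (Fin n → ℕ) → ℕ)
    (Q : (Fin (n + 2 + 1) → ℕ) → Prop) (v : Fin n → ℕ) (a : ℕ) : Prop :=
  (∀ c ≤ M v, (Q (Matrix.vecCons a (Matrix.vecCons c (Matrix.vecCons 0 v))) ↔ c = s v)) ∧
  ∀ t ≤ M v, ∀ c ≤ M v, (Q (Matrix.vecCons a (Matrix.vecCons c (Matrix.vecCons (t + 1) v))) ↔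
    (Q (Matrix.vecCons a (Matrix.vecCons c (Matrix.vecCons t v))) ∨
      ∃ a' ≤ M v, Q (Matrix.vecCons a (Matrix.vecCons a' (Matrix.vecCons t v))) ∧ E ((v, a'), c)))

theorem chk_df (hD : Clo D) {n : ℕ} {E : ((Fin n → ℕ) × ℕ) × ℕ → Prop} (hE : Df D E)
    {s M : (Fin n → ℕ) → ℕ} (hs : Fn D s) (hM : Fn D M) {Q : (Fin (n + 2 + 1) → ℕ) → Prop}
    (hQ : Q ∈ D (n + 2 + 1)) : Df D (fun p : (Fin n → ℕ) × ℕ => Chk E s M Q p.1 p.2) := by
  have h0 : Df D (fun r : (((Fin n → ℕ) × ℕ) × ℕ) × ℕ =>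
      Q (Matrix.vecCons r.2 (Matrix.vecCons r.1.2 (Matrix.vecCons r.1.1.2 r.1.1.1)))) :=
    ⟨Q, hQ, fun _ => Iff.rfl⟩
  have hM' : Fn D (fun p : (Fin n → ℕ) × ℕ => M p.1) := hM.fst hD
  refine Df.and hD ?_ ?_
  · refine Df.all hD (P := fun q : ((Fin n → ℕ) × ℕ) × ℕ =>
      (Q (Matrix.vecCons q.1.2 (Matrix.vecCons q.2 (Matrix.vecCons 0 q.1.1))) ↔ q.2 = s q.1.1))
      ?_ hM'
    refine Df.iff hD (h0.map hD (φ := fun q : ((Fin n → ℕ) × ℕ) × ℕ =>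
      (((q.1.1, 0), q.2), q.1.2)) ?_) (Df.eqf hD (Vr.snd.fn hD) (hs.ren hD (Rn.fst.comp Rn.fst)))
    exact ((((Rn.fst.comp Rn.fst).mp hD).pair (Fn.nat hD 0)).pair (Vr.snd.fn hD)).pair
      ((Vr.snd.ren Rn.fst).fn hD)
  · refine Df.all hD (P := fun q : ((Fin n → ℕ) × ℕ) × ℕ => ∀ c ≤ M q.1.1,
      (Q (Matrix.vecCons q.1.2 (Matrix.vecCons c (Matrix.vecCons (q.2 + 1) q.1.1))) ↔
      (Q (Matrix.vecCons q.1.2 (Matrix.vecCons c (Matrix.vecCons q.2 q.1.1))) ∨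
        ∃ a' ≤ M q.1.1, Q (Matrix.vecCons q.1.2 (Matrix.vecCons a' (Matrix.vecCons q.2 q.1.1))) ∧
          E ((q.1.1, a'), c)))) ?_ hM'
    refine Df.all hD (P := fun q : (((Fin n → ℕ) × ℕ) × ℕ) × ℕ =>
      (Q (Matrix.vecCons q.1.1.2 (Matrix.vecCons q.2 (Matrix.vecCons (q.1.2 + 1) q.1.1.1))) ↔
      (Q (Matrix.vecCons q.1.1.2 (Matrix.vecCons q.2 (Matrix.vecCons q.1.2 q.1.1.1))) ∨
        ∃ a' ≤ M q.1.1.1, Q (Matrix.vecCons q.1.1.2 (Matrix.vecCons a'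
          (Matrix.vecCons q.1.2 q.1.1.1))) ∧ E ((q.1.1.1, a'), q.2)))) ?_ (hM'.fst hD)
    have hv : Rn (fun q : (((Fin n → ℕ) × ℕ) × ℕ) × ℕ => q.1.1.1) :=
      Rn.fst.comp (Rn.fst.comp Rn.fst)
    have ha : Vr (fun q : (((Fin n → ℕ) × ℕ) × ℕ) × ℕ => q.1.1.2) :=
      Vr.snd.ren (Rn.fst.comp Rn.fst)
    have ht : Vr (fun q : (((Fin n → ℕ) × ℕ) × ℕ) × ℕ => q.1.2) := Vr.snd.ren Rn.fst
    have hc : Vr (fun q : (((Fin n → ℕ) × ℕ) × ℕ) × ℕ => q.2) := Vr.snd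
    refine Df.iff hD ?_ (Df.or hD ?_ ?_)
    · exact h0.map hD (φ := fun q : (((Fin n → ℕ) × ℕ) × ℕ) × ℕ =>
        (((q.1.1.1, q.1.2 + 1), q.2), q.1.1.2))
        ((((hv.mp hD).pair ((ht.fn hD).add hD (Fn.nat hD 1))).pair (hc.fn hD)).pair (ha.fn hD))
    · exact h0.ren hD (φ := fun q : (((Fin n → ℕ) × ℕ) × ℕ) × ℕ =>
        (((q.1.1.1, q.1.2), q.2), q.1.1.2)) (((hv.pair ht).pair hc).pair ha)
    · refine Df.ex hD (P := fun r : ((((Fin n → ℕ) × ℕ) × ℕ) × ℕ) × ℕ =>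
        Q (Matrix.vecCons r.1.1.1.2 (Matrix.vecCons r.2 (Matrix.vecCons r.1.1.2 r.1.1.1.1))) ∧
          E ((r.1.1.1.1, r.2), r.1.2)) ?_ (hM.ren hD hv)
      refine Df.and hD ?_ ?_
      · exact h0.ren hD (φ := fun r : ((((Fin n → ℕ) × ℕ) × ℕ) × ℕ) × ℕ =>
          (((r.1.1.1.1, r.1.1.2), r.2), r.1.1.1.2))
          ((((Rn.fst.comp hv).pair (ht.ren Rn.fst)).pair Vr.snd).pair (ha.ren Rn.fst))
      · exact hE.ren hD (φ := fun r : ((((Fin n → ℕ) × ℕ) × ℕ) × ℕ) × ℕ =>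
          ((r.1.1.1.1, r.2), r.1.2)) (((Rn.fst.comp hv).pair Vr.snd).pair (hc.ren Rn.fst))

theorem chk_right {n : ℕ} {E : ((Fin n → ℕ) × ℕ) × ℕ → Prop} {s M : (Fin n → ℕ) → ℕ}
    {Q : (Fin (n + 2 + 1) → ℕ) → Prop} {v : Fin n → ℕ} {a : ℕ}
    (hE : ∀ a a', E ((v, a), a') → a ≤ M v ∧ a' ≤ M v) (h : Chk E s M Q v a) :
    ∀ t ≤ M v + 1, ∀ c ≤ M v, (Q (Matrix.vecCons a (Matrix.vecCons c (Matrix.vecCons t v))) ↔
      Rch (fun a a' => E ((v, a), a')) (s v) t c) := by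
  intro t
  induction t with
  | zero => intro _ c hc; exact h.1 c hc
  | succ t ih =>
    intro ht c hc
    rw [h.2 t (by omega) c hc, ih (by omega) c hc]
    refine or_congr Iff.rfl ?_
    constructor
    · rintro ⟨a', h1, h2, h3⟩
      exact ⟨a', (ih (by omega) a' h1).1 h2, h3⟩
    · rintro ⟨a', h2, h3⟩
      have h1 := (hE a' c h3).1
      exact ⟨a', h1, (ih (by omega) a' h1).2 h2, h3⟩

/-- **Linear advice does not help.** -/
theorem nlin_of_adv (hD : Clo D) (hsub : ∀ n (R : (Fin n → ℕ) → Prop), R ∈ E2s n → R ∈ D n)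
    (h : ∀ (n : ℕ) (R : (Fin n → ℕ) → Prop), R ∈ NLin n → R ∈ Adv D n)
    {n : ℕ} {R : (Fin n → ℕ) → Prop} (hR : R ∈ NLin n) : R ∈ D n := by
  have hC := clo_E2s
  obtain ⟨E, b, s, e, hE, hb, hs, he, h1, h2⟩ := np_of_nlin hR
  set T : (Fin (n + 2) → ℕ) → Prop := fun w =>
    Rch (fun a a' => E (((fun i => w i.succ.succ), a), a')) (s fun i => w i.succ.succ) (w 1) (w 0)
    with hT
  have hTN : T ∈ NLin (n + 2) := by
    refine nlin_of_np ((np_rch hC hE hb hs h1).map hC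
      (φ := fun w : Fin (n + 2) → ℕ => (((fun i : Fin n => w i.succ.succ), w 1), w 0)) ?_)
    refine Rn.mp hC (Rn.pair (Rn.pair ?_ (Vr.fin 1)) (Vr.fin 0))
    exact fun i => Vr.fin i.succ.succ
  obtain ⟨Q, hQ, c, hQc⟩ := h _ T hTN
  have hTv : ∀ (v : Fin n → ℕ) (t x : ℕ), T (Matrix.vecCons x (Matrix.vecCons t v)) ↔
      Rch (fun a a' => E ((v, a), a')) (s v) t x := fun v t x => Iff.rfl
  let M : (Fin n → ℕ) → ℕ := fun v => b v + s v + e v + 1 + ∑ i, v i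
  have hMC : Fn E2s M := (((hb.add hC hs).add hC he).add hC (Fn.nat hC 1)).add hC
    (fn_sum hC fun i => (Vr.fin i).fn hC)
  have hM : Fn D M := Fn.of_sub hsub hMC
  have hED : Df D E := Df.of_sub hsub hE
  have hsD : Fn D s := Fn.of_sub hsub hs
  have heD : Fn D e := Fn.of_sub hsub he
  have hbD : Fn D b := Fn.of_sub hsub hb
  -- a bound for the advice
  have hB : Fn D (fun v => (M v + 1 + 2) ^ c) :=
    fn_pow hD ((hM.add hD (Fn.nat hD 1)).add hD (Fn.nat hD 2)) c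
  have h0 : Df D (fun r : (((Fin n → ℕ) × ℕ) × ℕ) × ℕ =>
      Q (Matrix.vecCons r.2 (Matrix.vecCons r.1.2 (Matrix.vecCons r.1.1.2 r.1.1.1)))) :=
    ⟨Q, hQ, fun _ => Iff.rfl⟩
  have hfin : Df D (fun v : Fin n → ℕ => ∃ a ≤ (M v + 1 + 2) ^ c, Chk E s M Q v a ∧
      Q (Matrix.vecCons a (Matrix.vecCons (e v) (Matrix.vecCons (b v + 2) v)))) := by
    refine Df.ex hD (P := fun p : (Fin n → ℕ) × ℕ => Chk E s M Q p.1 p.2 ∧
      Q (Matrix.vecCons p.2 (Matrix.vecCons (e p.1) (Matrix.vecCons (b p.1 + 2) p.1)))) ?_ hB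
    refine Df.and hD (chk_df hD hED hsD hM hQ) ?_
    exact h0.map hD (φ := fun p : (Fin n → ℕ) × ℕ => (((p.1, b p.1 + 2), e p.1), p.2))
      ((((Rn.fst.mp hD).pair ((hbD.fst hD).add hD (Fn.nat hD 2))).pair (heD.fst hD)).pair
        (Vr.snd.fn hD))
  refine mem_of_df (hfin.congr fun v => ?_)
  have hEv : ∀ a a', E ((v, a), a') → a ≤ b v ∧ a' ≤ b v := h1 v
  have hEM : ∀ a a', E ((v, a), a') → a ≤ M v ∧ a' ≤ M v := fun a a' h => by
    have := hEv a a' h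
    show a ≤ b v + s v + e v + 1 + ∑ i, v i ∧ a' ≤ b v + s v + e v + 1 + ∑ i, v i
    omega
  have hsM : s v ≤ M v := by
    show s v ≤ b v + s v + e v + 1 + ∑ i, v i
    omega
  have heM : e v ≤ M v := by
    show e v ≤ b v + s v + e v + 1 + ∑ i, v i
    omega
  have hbM : b v + 2 ≤ M v + 1 := by
    show b v + 2 ≤ b v + s v + e v + 1 + (∑ i, v i) + 1
    omega
  have hvM : ∀ i, v i ≤ M v := fun i => by
    have h3 : v i ≤ ∑ i, v i := Finset.single_le_sum (fun _ _ => Nat.zero_le _) (Finset.mem_univ i)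
    show v i ≤ b v + s v + e v + 1 + ∑ i, v i
    omega
  rw [h2 v, rch_sat hEv (e v)]
  constructor
  · intro hr
    obtain ⟨a, ha, hQa⟩ := hQc (M v + 1)
    have hQa' : ∀ t ≤ M v + 1, ∀ x ≤ M v + 1,
        (Q (Matrix.vecCons a (Matrix.vecCons x (Matrix.vecCons t v))) ↔
          Rch (fun a a' => E ((v, a), a')) (s v) t x) := by
      intro t ht x hx
      rw [← hTv v t x]
      refine (hQa _ fun i => ?_).symm
      refine Fin.cases hx (fun i => ?_) i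
      refine Fin.cases ht (fun i => ?_) i
      exact (hvM i).trans (Nat.le_succ _)
    refine ⟨a, ha, ⟨fun x hx => ?_, fun t ht x hx => ?_⟩, ?_⟩
    · rw [hQa' 0 (Nat.zero_le _) x (by omega)]
      exact Iff.rfl
    · rw [hQa' (t + 1) (by omega) x (by omega), hQa' t (by omega) x (by omega)]
      refine or_congr Iff.rfl ?_
      constructor
      · rintro ⟨a', h3, h4⟩
        have h5 := (hEM a' x h4).1
        exact ⟨a', h5, (hQa' t (by omega) a' (by omega)).2 h3, h4⟩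
      · rintro ⟨a', h5, h3, h4⟩
        exact ⟨a', (hQa' t (by omega) a' (by omega)).1 h3, h4⟩
    · exact (hQa' _ hbM _ (heM.trans (Nat.le_succ _))).2 hr
  · rintro ⟨a, _, h3, h4⟩
    exact (chk_right hEM h3 _ hbM _ heM).1 h4

/-- **The law with linear advice.** -/
theorem law_adv (hD : Clo D) (hsub : ∀ n (R : (Fin n → ℕ) → Prop), R ∈ E2s n → R ∈ D n) :
    (∀ (n : ℕ) (R : (Fin n → ℕ) → Prop), R ∈ NLin n → R ∈ D n) ↔
      ∃ d e K : ℕ, ∀ R ∈ NLin 1, RealGates (Adv D) d e K R := by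
  have h1 := law_gates (clo_adv hD) (fun n R hR => sub_adv hD (hsub n R hR))
  rw [← h1]
  exact ⟨fun h n R hR => sub_adv hD (h n R hR), fun h n R hR => nlin_of_adv hD hsub h hR⟩

theorem law_lba_adv : (∀ (n : ℕ) (R : (Fin n → ℕ) → Prop), R ∈ NLin n ↔ R ∈ E2s n) ↔
    ∃ d e K : ℕ, ∀ R ∈ NLin 1, RealGates (Adv E2s) d e K R := by
  rw [← law_adv clo_E2s fun _ _ h => h]
  exact ⟨fun h n R hR => (h n R).1 hR, fun h n R => ⟨h n R, e2s_nlin⟩⟩

end Pool.Agent.TH684.LB
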