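import Pool.Agent.TH684.LB.Pat
import Pool.Agent.TH762.E2.IS

/-!
# Nondeterministic linear space and polynomial inequalities with arbitrary real coefficients
-/

set_option autoImplicit false

namespace Pool.Agent.TH684.LB

open Pool.Agent.TH762.E2

variable {D : (n : ℕ) → Set ((Fin n → ℕ) → Prop)} {Γ : Type} [Cx Γ] {d e m K : ℕ}

/-- The predicate `R` on numbers is decided by a Boolean combination of `K` polynomial inequalities of
degree at most `e` with arbitrary real coefficients in the `d` features `f i`, which are computed in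
`D` and bounded by polynomials; the Boolean combination and the coefficients may depend arbitrarily on
the number `n` of binary digits. -/
def RealGates (D : (n : ℕ) → Set ((Fin n → ℕ) → Prop)) (d e K : ℕ) (R : (Fin 1 → ℕ) → Prop) :
    Prop :=
  ∃ f : Fin d → (Fin 1 → ℕ) → ℕ, (∀ i, Fn D (f i)) ∧
    ∀ n : ℕ, ∃ (P : Fin K → MvPolynomial (Fin d) ℝ) (β : (Fin K → Prop) → Prop),
      (∀ κ, (P κ).totalDegree ≤ e) ∧
      ∀ v : Fin 1 → ℕ, v 0 < 2 ^ n →
        (R v ↔ β fun κ => 0 < MvPolynomial.eval (fun i => (f i v : ℝ)) (P κ))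

theorem df_allF (hD : Clo D) {ι : Type} [Fintype ι] {P : ι → Γ → Prop} (h : ∀ i, Df D (P i)) :
    Df D (fun γ => ∀ i, P i γ) := by
  have e := Fintype.equivFin ι
  exact (Df.fin hD (P := fun j => P (e.symm j)) fun j => h _).congr fun _ =>
    ⟨fun H j => H _, fun H i => by simpa using H (e i)⟩

theorem df_exF (hD : Clo D) {ι : Type} [Fintype ι] {P : ι → Γ → Prop} (h : ∀ i, Df D (P i)) :
    Df D (fun γ => ∃ i, P i γ) := by
  have e := Fintype.equivFin ι
  exact (Df.exfin hD (P := fun j => P (e.symm j)) fun j => h _).congr fun γ =>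
    ⟨fun ⟨i, H⟩ => ⟨e i, by simpa using H⟩, fun ⟨j, H⟩ => ⟨_, H⟩⟩

theorem fn_pow (hD : Clo D) {f : Γ → ℕ} (hf : Fn D f) : ∀ n : ℕ, Fn D (fun γ => f γ ^ n)
  | 0 => (Fn.nat hD 1).congr fun γ => pow_zero _
  | n + 1 => ((fn_pow hD hf n).mul hD hf).congr fun γ => pow_succ _ _

theorem fn_sum (hD : Clo D) : ∀ {m : ℕ} {F : Fin m → Γ → ℕ} (_ : ∀ i, Fn D (F i)),
    Fn D (fun γ => ∑ i, F i γ)
  | 0, F, _ => (Fn.nat hD 0).congr fun γ => by simp
  | m + 1, F, h => ((h 0).add hD (fn_sum hD fun i => h i.succ)).congr fun γ =>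
      Fin.sum_univ_succ _

theorem fn_prod (hD : Clo D) : ∀ {m : ℕ} {F : Fin m → Γ → ℕ} (_ : ∀ i, Fn D (F i)),
    Fn D (fun γ => ∏ i, F i γ)
  | 0, F, _ => (Fn.nat hD 1).congr fun γ => by simp
  | m + 1, F, h => ((h 0).mul hD (fn_prod hD fun i => h i.succ)).congr fun γ =>
      Fin.prod_univ_succ _

theorem fn_sumF (hD : Clo D) {ι : Type} [Fintype ι] {F : ι → Γ → ℕ} (h : ∀ i, Fn D (F i)) :
    Fn D (fun γ => ∑ i, F i γ) := by
  have e := Fintype.equivFin ι
  exact (fn_sum hD (F := fun j => F (e.symm j)) fun j => h _).congr fun γ =>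
    (Equiv.sum_comp e.symm fun i => F i γ).symm

/-- The value of a monomial in the features at the number `m x + j`. -/
def mono (f : Fin d → (Fin 1 → ℕ) → ℕ) (e m : ℕ) (v : Fin 1 → ℕ) (j : Fin m)
    (a : Fin d → Fin (e + 1)) : ℕ :=
  ∏ i, f i (fun _ => m * v 0 + j) ^ (a i : ℕ)

theorem fn_mono (hD : Clo D) {f : Fin d → (Fin 1 → ℕ) → ℕ} (hf : ∀ i, Fn D (f i)) (j : Fin m)
    (a : Fin d → Fin (e + 1)) : Fn D (fun v : Fin 1 → ℕ => mono f e m v j a) := by
  refine fn_prod hD fun i => fn_pow hD ?_ _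
  refine Fn.map hD (hf i) (φ := fun (v : Fin 1 → ℕ) (_ : Fin 1) => m * v 0 + j) fun i => ?_
  exact ((Fn.nat hD m).mul hD ((Vr.fin 0).fn hD)).add hD (Fn.nat hD (j : ℕ))

/-- A bound for all monomials. -/
def wt (f : Fin d → (Fin 1 → ℕ) → ℕ) (e m : ℕ) (v : Fin 1 → ℕ) : ℕ :=
  1 + ∑ a, ∑ j, mono f e m v j a

theorem fn_wt (hD : Clo D) {f : Fin d → (Fin 1 → ℕ) → ℕ} (hf : ∀ i, Fn D (f i)) :
    Fn D (fun v : Fin 1 → ℕ => wt f e m v) :=
  (Fn.nat hD 1).add hD (fn_sumF hD fun a => fn_sum hD fun j => fn_mono hD hf j a)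

theorem wt_bound (f : Fin d → (Fin 1 → ℕ) → ℕ) (v : Fin 1 → ℕ) (a : Fin d → Fin (e + 1)) :
    ∑ j, mono f e m v j a ≤ wt f e m v := by
  unfold wt
  have h : ∑ j, mono f e m v j a ≤ ∑ a, ∑ j, mono f e m v j a :=
    Finset.single_le_sum (f := fun a => ∑ j, mono f e m v j a)
      (fun _ _ => Nat.zero_le _) (Finset.mem_univ a)
  omega

/-- The bound for the certificates. -/
def bd (f : Fin d → (Fin 1 → ℕ) → ℕ) (e m : ℕ) (v : Fin 1 → ℕ) : ℕ :=
  wt f e m v ^ Fintype.card (Fin d → Fin (e + 1))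

theorem df_bad (hD : Clo D) {f : Fin d → (Fin 1 → ℕ) → ℕ} (hf : ∀ i, Fn D (f i))
    (t : Fin m → Prop) :
    Df D (fun v : Fin 1 → ℕ => Bad (bd f e m v) (mono f e m v) t) := by
  have hb : Fn D (fun v : Fin 1 → ℕ => bd f e m v) := fn_pow hD (fn_wt hD hf) _
  have hp : ∀ j, Fn D (fun q : ((Fin 1 → ℕ) × (Fin m → ℕ)) × (Fin m → ℕ) => q.1.2 j) :=
    fun j => ((Vr.sndV j).ren Rn.fstV).fn hD
  have hq : ∀ j, Fn D (fun q : ((Fin 1 → ℕ) × (Fin m → ℕ)) × (Fin m → ℕ) => q.2 j) :=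
    fun j => (Vr.sndV j).fn hD
  have hm : ∀ j a, Fn D (fun q : ((Fin 1 → ℕ) × (Fin m → ℕ)) × (Fin m → ℕ) =>
      mono f e m q.1.1 j a) := fun j a =>
    (fn_mono hD hf j a).ren hD (φ := fun q : ((Fin 1 → ℕ) × (Fin m → ℕ)) × (Fin m → ℕ) => q.1.1)
      (Rn.fstV.comp Rn.fstV)
  have h1 : Df D (fun q : ((Fin 1 → ℕ) × (Fin m → ℕ)) × (Fin m → ℕ) =>
      (∀ a, ∑ j, q.1.2 j * mono f e m q.1.1 j a = ∑ j, q.2 j * mono f e m q.1.1 j a) ∧
      (∃ j, q.2 j < q.1.2 j) ∧ ∀ j, (q.2 j < q.1.2 j → t j) ∧ (q.1.2 j < q.2 j → ¬ t j)) := by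
    refine Df.and hD (df_allF hD fun a => Df.eqf hD (fn_sum hD fun j => (hp j).mul hD (hm j a))
      (fn_sum hD fun j => (hq j).mul hD (hm j a))) (Df.and hD
        (Df.exfin hD fun j => Df.ltf hD (hq j) (hp j)) (Df.fin hD fun j => Df.and hD
          (Df.imp hD (Df.ltf hD (hq j) (hp j)) (Df.const hD _))
          (Df.imp hD (Df.ltf hD (hp j) (hq j)) (Df.const hD _))))
  exact Df.exV hD m (Df.exV hD m h1 (hb.ren hD Rn.fstV)) hb

/-- The set with the code `c` is a Boolean combination of patterns without a certificate. -/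
def Ach (f : Fin d → (Fin 1 → ℕ) → ℕ) (e m K c : ℕ) (v : Fin 1 → ℕ) : Prop :=
  ∃ q : (Fin K → Finset (Fin m)) × ((Fin K → Bool) → Bool),
    (∀ κ, ¬ Bad (bd f e m v) (mono f e m v) (fun j => j ∈ q.1 κ)) ∧
      ∀ j : Fin m, (c.testBit j = true ↔ q.2 (fun κ => decide (j ∈ q.1 κ)) = true)

theorem df_ach (hD : Clo D) {f : Fin d → (Fin 1 → ℕ) → ℕ} (hf : ∀ i, Fn D (f i)) (c : ℕ) :
    Df D (fun v : Fin 1 → ℕ => Ach f e m K c v) :=
  df_exF hD fun q => Df.and hD (df_allF hD fun κ => (df_bad hD hf _).not hD)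
    (Df.const hD (∀ j : Fin m, (c.testBit j = true ↔ q.2 (fun κ => decide (j ∈ q.1 κ)) = true)))

theorem exists_not_ach (f : Fin d → (Fin 1 → ℕ) → ℕ)
    (hm : 2 ^ (2 ^ K) * (∑ k ∈ Finset.Iic (Fintype.card (Fin d → Fin (e + 1))), m.choose k) ^ K <
      2 ^ m) (v : Fin 1 → ℕ) : ∃ c, c < 2 ^ m ∧ ¬ Ach f e m K c v := by
  classical
  obtain ⟨U, hU⟩ := exists_unachieved hm (Finset.univ.filter fun U : Finset (Fin m) =>
    ¬ Bad (bd f e m v) (mono f e m v) (fun j => j ∈ U))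
    (card_good_le (mono f e m v) (wt f e m v) (by unfold wt; omega) (wt_bound f v) _
      fun U hU => (Finset.mem_filter.1 hU).2)
  refine ⟨Nat.ofBits fun j : Fin m => decide (j ∈ U), Nat.ofBits_lt_two_pow _, ?_⟩
  rintro ⟨⟨t, β⟩, h1, h2⟩
  refine hU t β (fun κ => Finset.mem_filter.2 ⟨Finset.mem_univ _, h1 κ⟩) fun j => ?_
  rw [← h2 j, Nat.testBit_ofBits_lt _ _ j.2]
  simp

theorem eval_eq_sum (P : MvPolynomial (Fin d) ℝ) (hP : P.totalDegree ≤ e) (x : Fin d → ℝ) :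
    MvPolynomial.eval x P = ∑ a : Fin d → Fin (e + 1),
      P.coeff (Finsupp.equivFunOnFinite.symm fun i => (a i : ℕ)) * ∏ i, x i ^ (a i : ℕ) := by
  classical
  set φ : (Fin d → Fin (e + 1)) → (Fin d →₀ ℕ) := fun a =>
    Finsupp.equivFunOnFinite.symm fun i => (a i : ℕ) with hφ
  have inj : Function.Injective φ := fun a b h => by
    funext i
    have := DFunLike.congr_fun h i
    exact Fin.ext this
  rw [MvPolynomial.eval_eq']
  have h1 : ∑ a : Fin d → Fin (e + 1), P.coeff (φ a) * ∏ i, x i ^ (a i : ℕ) =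
      ∑ α ∈ Finset.univ.image φ, P.coeff α * ∏ i, x i ^ α i := by
    rw [Finset.sum_image inj.injOn]
    exact Finset.sum_congr rfl fun a _ => rfl
  rw [h1]
  refine Finset.sum_subset (fun α hα => ?_) fun α _ hα => ?_
  · rw [Finset.mem_image]
    have h2 : ∀ i, α i < e + 1 := fun i => by
      have h3 := MvPolynomial.monomial_le_degreeOf i hα
      have h4 := MvPolynomial.degreeOf_le_totalDegree P i
      omega
    exact ⟨fun i => ⟨α i, h2 i⟩, Finset.mem_univ _, Finsupp.ext fun i => rfl⟩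
  · rw [MvPolynomial.notMem_support_iff.1 hα, zero_mul]

open Classical in
theorem wrong_of_gates (hD : Clo D) (h : ∀ R ∈ NLin 1, RealGates D d e K R) :
    ∃ k, Wrong D k := by
  obtain ⟨m, hm0, hm⟩ := exists_m (Fintype.card (Fin d → Fin (e + 1))) K
  refine ⟨2 ^ m - 1, fun R hR hch => ?_⟩
  have hpow : 0 < 2 ^ m := by positivity
  set cnt : (Fin 1 → ℕ) → ℕ := fun v => (Finset.univ.filter (fun s => R s v)).card with hcnt
  have hcl : ∀ v, cnt v < 2 ^ m := fun v => by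
    have h1 := Finset.card_filter_le (Finset.univ : Finset (Fin (2 ^ m - 1))) (fun s => R s v)
    rw [Finset.card_univ, Fintype.card_fin] at h1
    simp only [hcnt]
    omega
  -- the digits of the count
  set R' : (Fin 1 → ℕ) → Prop := fun w =>
    (cnt (fun _ => w 0 / (m - 1 + 1))).testBit (w 0 % (m - 1 + 1)) = true with hR'
  have hR'N : R' ∈ NLin 1 := by
    have hC := clo_nlin
    have hw : Fn NLin (fun w : Fin 1 → ℕ => w 0) := (Vr.fin 0).fn hC
    have hdv : Fn NLin (fun w : Fin 1 → ℕ => w 0 / (m - 1 + 1)) := hw.div hC (Fn.nat hC (m - 1))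
    have hmd : Fn NLin (fun w : Fin 1 → ℕ => w 0 % (m - 1 + 1)) := hw.mod hC (Fn.nat hC (m - 1))
    have hRs : ∀ s, Df NLin (fun w : Fin 1 → ℕ => R s (fun _ => w 0 / (m - 1 + 1))) := fun s =>
      (df_of_mem (hR s)).map hC (φ := fun (w : Fin 1 → ℕ) (_ : Fin 1) => w 0 / (m - 1 + 1))
        fun _ => hdv
    have h1 : Df NLin (fun w : Fin 1 → ℕ => ∃ (F : Finset (Fin (2 ^ m - 1))),
        (∀ s, (R s (fun _ => w 0 / (m - 1 + 1)) ↔ s ∈ F)) ∧
        ∃ j : Fin (m - 1 + 1), w 0 % (m - 1 + 1) = j ∧ F.card.testBit j = true) :=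
      df_exF hC fun F => Df.and hC (Df.fin hC fun s => Df.iff hC (hRs s) (Df.const hC _))
        (Df.exfin hC fun j => Df.and hC (Df.eqf hC hmd (Fn.nat hC _)) (Df.const hC _))
    refine mem_of_df (h1.congr fun w => ?_)
    constructor
    · intro h
      exact ⟨Finset.univ.filter (fun s => R s (fun _ => w 0 / (m - 1 + 1))), fun s => by simp,
        ⟨w 0 % (m - 1 + 1), Nat.mod_lt _ (by omega)⟩, rfl, h⟩
    · rintro ⟨F, h2, j, h3, h4⟩
      have h5 : F = Finset.univ.filter (fun s => R s (fun _ => w 0 / (m - 1 + 1))) := by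
        ext s
        simp [h2 s]
      show (cnt (fun _ => w 0 / (m - 1 + 1))).testBit (w 0 % (m - 1 + 1)) = true
      rw [h3]
      simp only [hcnt]
      rw [← h5]
      exact h4
  obtain ⟨f, hf, hg⟩ := h R' hR'N
  have hex : ∀ v, ∃ c, c < 2 ^ m ∧ ¬ Ach f e m K c v := fun v => exists_not_ach f hm v
  -- the count is achieved
  have hach : ∀ v, Ach f e m K (cnt v) v := by
    intro v
    obtain ⟨P, β, hP, hβ⟩ := hg (m * v 0 + m)
    refine ⟨(fun κ => Finset.univ.filter fun j : Fin m =>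
      0 < MvPolynomial.eval (fun i => (f i (fun _ => m * v 0 + j) : ℝ)) (P κ),
      fun b => decide (β fun κ => b κ = true)), fun κ hbad => ?_, fun j => ?_⟩
    · refine not_real_of_bad hbad (fun a => (P κ).coeff
        (Finsupp.equivFunOnFinite.symm fun i => (a i : ℕ))) fun j => ?_
      rw [Finset.mem_filter, eval_eq_sum (P κ) (hP κ)]
      simp only [Finset.mem_univ, true_and, mono, Nat.cast_prod, Nat.cast_pow]
    · have h1 := hβ (fun _ => m * v 0 + j) (lt_of_lt_of_le (b := m * v 0 + m)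
        (Nat.add_lt_add_left j.2 _) Nat.lt_two_pow_self.le)
      have h2 : m - 1 + 1 = m := by omega
      have h3 : (m * v 0 + (j : ℕ)) / m = v 0 := by
        rw [Nat.mul_add_div hm0, Nat.div_eq_of_lt j.2, Nat.add_zero]
      have h4 : (m * v 0 + (j : ℕ)) % m = j := by
        rw [Nat.mul_add_mod, Nat.mod_eq_of_lt j.2]
      have h5 : (fun _ : Fin 1 => v 0) = v := funext fun i => by
        rw [Subsingleton.elim i 0]
      simp only [hR', h2, h3, h4, h5] at h1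
      rw [h1, decide_eq_true_eq]
      simp only [Finset.mem_filter, Finset.mem_univ, true_and, decide_eq_true_eq]
  refine ⟨fun v => Nat.find (hex v), fun v => ⟨?_, ?_⟩, fun c => ?_⟩
  · have h1 := (Nat.find_spec (hex v)).1
    exact Nat.le_sub_one_of_lt h1
  · intro h1
    have h2 : Nat.find (hex v) = cnt v := h1
    have h3 := (Nat.find_spec (hex v)).2
    rw [h2] at h3
    exact h3 (hach v)
  · have h1 : ∀ c, Df D (fun v : Fin 1 → ℕ => c < 2 ^ m ∧ ¬ Ach f e m K c v) := fun c =>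
      Df.and hD (Df.const hD _) ((df_ach hD hf c).not hD)
    have h2 : Df D (fun v : Fin 1 → ℕ => (c < 2 ^ m ∧ ¬ Ach f e m K c v) ∧
        ¬ ∃ c' < c, (c' < 2 ^ m ∧ ¬ Ach f e m K c' v)) :=
      Df.and hD (h1 c) ((Df.exlt hD h1 c).not hD)
    refine mem_of_df (h2.congr fun v => ?_)
    show Nat.find (hex v) = c ↔ _
    rw [Nat.find_eq_iff]
    constructor
    · rintro ⟨h3, h4⟩
      exact ⟨h3, fun ⟨c', h5, h6⟩ => h4 c' h5 h6⟩
    · rintro ⟨h3, h4⟩
      exact ⟨h3, fun c' h5 h6 => h4 ⟨c', h5, h6⟩⟩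

open Classical in
theorem gates_of_mem (hD : Clo D) {R : (Fin 1 → ℕ) → Prop} (h : R ∈ D 1) :
    RealGates D 1 1 1 R := by
  refine ⟨fun _ v => if R v then 1 else 0, fun _ => Fn.ite hD (df_of_mem h) (Fn.nat hD 1)
    (Fn.nat hD 0), fun n => ⟨fun _ => MvPolynomial.X 0, fun p => p 0, fun _ => ?_, fun v _ => ?_⟩⟩
  · rw [MvPolynomial.totalDegree_X]
  · by_cases hv : R v
    · simp [hv]
    · simp [hv]

/-- **The law for classes.** -/
theorem law_gates (hD : Clo D) (hsub : ∀ n (R : (Fin n → ℕ) → Prop), R ∈ E2s n → R ∈ D n) :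
    (∀ (n : ℕ) (R : (Fin n → ℕ) → Prop), R ∈ NLin n → R ∈ D n) ↔
      ∃ d e K : ℕ, ∀ R ∈ NLin 1, RealGates D d e K R := by
  constructor
  · exact fun h => ⟨1, 1, 1, fun R hR => gates_of_mem hD (h 1 R hR)⟩
  · rintro ⟨d, e, K, h⟩
    exact (law_nlin hD hsub).2 (wrong_of_gates hD h)

/-- **The law for linear space.** -/
theorem law_lba_gates : (∀ (n : ℕ) (R : (Fin n → ℕ) → Prop), R ∈ NLin n ↔ R ∈ E2s n) ↔
    ∃ d e K : ℕ, ∀ R ∈ NLin 1, RealGates E2s d e K R := by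
  rw [← law_gates clo_E2s fun _ _ h => h]
  exact ⟨fun h n R hR => (h n R).1 hR, fun h n R => ⟨h n R, e2s_nlin⟩⟩

end Pool.Agent.TH684.LB
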