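import Mathlib

/-!
# Patterns which are cut out by few linear forms with arbitrary real coefficients
-/

set_option autoImplicit false

namespace Pool.Agent.TH684.LB

open Finset

/-- A certificate that the set of the `j` with `t j` among the vectors `V j` is not cut out by a
linear form: two combinations with the same value. -/
def Bad {m : ℕ} {S : Type} (B : ℕ) (V : Fin m → S → ℕ) (t : Fin m → Prop) : Prop :=
  ∃ p : Fin m → ℕ, (∀ j, p j ≤ B) ∧ ∃ q : Fin m → ℕ, (∀ j, q j ≤ B) ∧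
    ((∀ a, ∑ j, p j * V j a = ∑ j, q j * V j a) ∧ (∃ j, q j < p j) ∧
    ∀ j, (q j < p j → t j) ∧ (p j < q j → ¬ t j))

theorem not_real_of_bad {m : ℕ} {S : Type} [Fintype S] {B : ℕ} {V : Fin m → S → ℕ}
    {t : Fin m → Prop} (h : Bad B V t) (w : S → ℝ)
    (hw : ∀ j, t j ↔ 0 < ∑ a, w a * (V j a : ℝ)) : False := by
  obtain ⟨p, -, q, -, h1, ⟨j0, h2⟩, h3⟩ := h
  have e1 : ∑ j, ((p j : ℝ) - q j) * ∑ a, w a * (V j a : ℝ) = 0 := by
    have e2 : ∀ a, ∑ j, ((p j : ℝ) - q j) * (V j a : ℝ) = 0 := fun a => by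
      have e3 : ((∑ j, p j * V j a : ℕ) : ℝ) = ((∑ j, q j * V j a : ℕ) : ℝ) := by rw [h1 a]
      push_cast at e3
      simp only [sub_mul, Finset.sum_sub_distrib]
      rw [e3, sub_self]
    calc ∑ j, ((p j : ℝ) - q j) * ∑ a, w a * (V j a : ℝ)
        = ∑ j, ∑ a, w a * (((p j : ℝ) - q j) * (V j a : ℝ)) := by
          refine Finset.sum_congr rfl fun j _ => ?_
          rw [Finset.mul_sum]
          exact Finset.sum_congr rfl fun a _ => by ring
      _ = ∑ a, ∑ j, w a * (((p j : ℝ) - q j) * (V j a : ℝ)) := Finset.sum_comm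
      _ = ∑ a, w a * ∑ j, ((p j : ℝ) - q j) * (V j a : ℝ) := by
          refine Finset.sum_congr rfl fun a _ => ?_
          rw [Finset.mul_sum]
      _ = 0 := by simp [e2]
  have e4 : 0 < ∑ j, ((p j : ℝ) - q j) * ∑ a, w a * (V j a : ℝ) := by
    refine Finset.sum_pos' (fun j _ => ?_) ⟨j0, Finset.mem_univ _, ?_⟩
    · rcases lt_trichotomy (q j) (p j) with h | h | h
      · have g1 := (hw j).1 ((h3 j).1 h)
        have g2 : (0 : ℝ) < (p j : ℝ) - q j := by
          have : (q j : ℝ) < p j := by exact_mod_cast h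
          linarith
        exact (mul_pos g2 g1).le
      · rw [h, sub_self, zero_mul]
      · have g1 : ¬ 0 < ∑ a, w a * (V j a : ℝ) := fun g => (h3 j).2 h ((hw j).2 g)
        have g2 : (p j : ℝ) - q j ≤ 0 := by
          have : (p j : ℝ) < q j := by exact_mod_cast h
          linarith
        exact mul_nonneg_of_nonpos_of_nonpos g2 (not_lt.1 g1)
    · have g1 := (hw j0).1 ((h3 j0).1 h2)
      have g2 : (0 : ℝ) < (p j0 : ℝ) - q j0 := by
        have : (q j0 : ℝ) < p j0 := by exact_mod_cast h2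
        linarith
      exact mul_pos g2 g1
  exact absurd e1 e4.ne'

theorem exists_cert {m : ℕ} {S : Type} [Fintype S] (V : Fin m → S → ℕ) (W : ℕ) (hW : 1 ≤ W)
    (hV : ∀ a, ∑ j, V j a ≤ W) (J : Finset (Fin m)) (hJ : J.card = Fintype.card S + 1) :
    ∃ p q : Fin m → ℕ, (∀ j, p j ≤ W ^ Fintype.card S) ∧ (∀ j, q j ≤ W ^ Fintype.card S) ∧
      (∀ j, j ∉ J → p j = 0 ∧ q j = 0) ∧ (∀ a, ∑ j, p j * V j a = ∑ j, q j * V j a) ∧
      ∃ j, q j < p j := by
  classical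
  set s := Fintype.card S with hs
  set N := W ^ s with hN
  let ex : (J → Fin (N + 1)) → Fin m → ℕ := fun x j => if h : j ∈ J then x ⟨j, h⟩ else 0
  have hex : ∀ x j, ex x j ≤ N := fun x j => by
    by_cases h : j ∈ J
    · simp only [ex, h, dif_pos]
      exact Nat.lt_succ_iff.1 (x ⟨j, h⟩).2
    · simp [ex, h]
  have hsum : ∀ x a, ∑ j, ex x j * V j a ≤ N * W := fun x a => by
    calc ∑ j, ex x j * V j a ≤ ∑ j, N * V j a :=
          Finset.sum_le_sum fun j _ => Nat.mul_le_mul_right _ (hex x j)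
      _ = N * ∑ j, V j a := by rw [Finset.mul_sum]
      _ ≤ N * W := Nat.mul_le_mul_left _ (hV a)
  let F : (J → Fin (N + 1)) → (S → Fin (N * W + 1)) := fun x a =>
    ⟨∑ j, ex x j * V j a, Nat.lt_succ_iff.2 (hsum x a)⟩
  have hcard : Fintype.card (S → Fin (N * W + 1)) < Fintype.card (J → Fin (N + 1)) := by
    rw [Fintype.card_fun, Fintype.card_fun, Fintype.card_fin, Fintype.card_fin,
      Fintype.card_coe, hJ, ← hs]
    have hN1 : 1 ≤ N := Nat.one_le_pow _ _ hW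
    calc (N * W + 1) ^ s ≤ ((N + 1) * W) ^ s := Nat.pow_le_pow_left (by nlinarith) _
      _ = (N + 1) ^ s * N := by rw [mul_pow]
      _ < (N + 1) ^ s * (N + 1) := Nat.mul_lt_mul_of_pos_left (Nat.lt_succ_self _) (by positivity)
      _ = (N + 1) ^ (s + 1) := (pow_succ _ _).symm
  obtain ⟨x, y, hxy, hF⟩ := Fintype.exists_ne_map_eq_of_card_lt F hcard
  have hFs : ∀ a, ∑ j, ex x j * V j a = ∑ j, ex y j * V j a := fun a => by
    have := congrArg (fun g => ((g a : Fin (N * W + 1)) : ℕ)) hF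
    exact this
  obtain ⟨⟨j, hj⟩, hne⟩ := Function.ne_iff.1 hxy
  have hne' : ex x j ≠ ex y j := by
    simp only [ex, hj, dif_pos]
    exact fun h => hne (Fin.ext h)
  have h0 : ∀ x j, j ∉ J → ex x j = 0 := fun x j h => by simp [ex, h]
  rcases Nat.lt_or_gt_of_ne hne' with h | h
  · exact ⟨ex y, ex x, hex y, hex x, fun j hj => ⟨h0 y j hj, h0 x j hj⟩,
      fun a => (hFs a).symm, j, h⟩
  · exact ⟨ex x, ex y, hex x, hex y, fun j hj => ⟨h0 x j hj, h0 y j hj⟩, hFs, j, h⟩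

theorem card_good_le {m : ℕ} {S : Type} [Fintype S] (V : Fin m → S → ℕ) (W : ℕ) (hW : 1 ≤ W)
    (hV : ∀ a, ∑ j, V j a ≤ W) (𝒜 : Finset (Finset (Fin m)))
    (h : ∀ U ∈ 𝒜, ¬ Bad (W ^ Fintype.card S) V (fun j => j ∈ U)) :
    𝒜.card ≤ ∑ k ∈ Iic (Fintype.card S), m.choose k := by
  classical
  have hd : 𝒜.vcDim ≤ Fintype.card S := by
    unfold Finset.vcDim
    refine Finset.sup_le fun J hJ => ?_
    by_contra hlt
    push Not at hlt
    obtain ⟨J', hJ', hc⟩ := Finset.exists_subset_card_eq (s := J)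
      (n := Fintype.card S + 1) hlt
    have hsh : 𝒜.Shatters J' := (Finset.mem_shatterer.1 hJ).mono_right hJ'
    obtain ⟨p, q, h1, h2, h3, h4, h5⟩ := exists_cert V W hW hV J' hc
    obtain ⟨U, hU, hUJ⟩ := hsh (t := J'.filter fun j => q j < p j) (Finset.filter_subset _ _)
    refine h U hU ⟨p, h1, q, h2, h4, h5, fun j => ?_⟩
    have hmem : ∀ j, j ∈ J' → (j ∈ U ↔ q j < p j) := fun j hj => by
      have e1 : j ∈ J' ∩ U ↔ j ∈ J'.filter fun j => q j < p j := by rw [hUJ]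
      rw [Finset.mem_inter, Finset.mem_filter] at e1
      constructor
      · exact fun h => (e1.1 ⟨hj, h⟩).2
      · exact fun h => (e1.2 ⟨hj, h⟩).2
    by_cases hj : j ∈ J'
    · exact ⟨fun h => (hmem j hj).2 h, fun h h' => absurd ((hmem j hj).1 h') (by omega)⟩
    · obtain ⟨e1, e2⟩ := h3 j hj
      exact ⟨fun h => by omega, fun h => by omega⟩
  calc 𝒜.card ≤ 𝒜.shatterer.card := Finset.card_le_card_shatterer _
    _ ≤ ∑ k ∈ Iic 𝒜.vcDim, (Fintype.card (Fin m)).choose k := Finset.card_shatterer_le_sum_vcDim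
    _ = ∑ k ∈ Iic 𝒜.vcDim, m.choose k := by rw [Fintype.card_fin]
    _ ≤ _ := Finset.sum_le_sum_of_subset (Finset.Iic_subset_Iic.2 hd)

/-- Some set is not a Boolean combination of the good ones. -/
theorem exists_unachieved {m K A : ℕ} (hlt : 2 ^ (2 ^ K) * A ^ K < 2 ^ m)
    (𝒜 : Finset (Finset (Fin m))) (hA : 𝒜.card ≤ A) :
    ∃ U : Finset (Fin m), ∀ (t : Fin K → Finset (Fin m)) (β : (Fin K → Bool) → Bool),
      (∀ κ, t κ ∈ 𝒜) → ¬ ∀ j, j ∈ U ↔ β (fun κ => decide (j ∈ t κ)) = true := by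
  classical
  by_contra hcon
  push Not at hcon
  let F : (Fin K → 𝒜) × ((Fin K → Bool) → Bool) → Finset (Fin m) := fun q =>
    Finset.univ.filter fun j => q.2 (fun κ => decide (j ∈ (q.1 κ).1)) = true
  have hF : Function.Surjective F := fun U => by
    obtain ⟨t, β, h1, h2⟩ := hcon U
    refine ⟨(fun κ => ⟨t κ, h1 κ⟩, β), ?_⟩
    ext j
    simp only [F, Finset.mem_filter, Finset.mem_univ, true_and]
    exact (h2 j).symm
  have h1 := Fintype.card_le_of_surjective F hF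
  rw [Fintype.card_finset, Fintype.card_fin, Fintype.card_prod, Fintype.card_fun,
    Fintype.card_fun, Fintype.card_fun, Fintype.card_coe, Fintype.card_fin, Fintype.card_bool]
    at h1
  have h2 : 𝒜.card ^ K ≤ A ^ K := Nat.pow_le_pow_left hA _
  have h3 : 𝒜.card ^ K * 2 ^ 2 ^ K ≤ A ^ K * 2 ^ 2 ^ K := Nat.mul_le_mul_right _ h2
  have h4 : A ^ K * 2 ^ 2 ^ K = 2 ^ (2 ^ K) * A ^ K := Nat.mul_comm _ _
  omega

theorem exists_m (s K : ℕ) : ∃ m : ℕ, 0 < m ∧
    2 ^ (2 ^ K) * (∑ k ∈ Iic s, m.choose k) ^ K < 2 ^ m := by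
  have h0 := tendsto_pow_const_div_const_pow_of_one_lt (s * K) (r := (2 : ℝ)) (by norm_num)
  set A : ℕ := 2 ^ (2 ^ K) * (s + 1) ^ K with hA
  have hA1 : (0 : ℝ) < 2 * A := by positivity
  have h1 := (h0.eventually (gt_mem_nhds (show (0 : ℝ) < 1 / (2 * A) by positivity))).and
    (Filter.eventually_ge_atTop 2)
  obtain ⟨n, h2, h3⟩ := h1.exists
  refine ⟨n - 1, by omega, ?_⟩
  have h4 : 2 * A * n ^ (s * K) < 2 ^ n := by
    rw [div_lt_div_iff₀ (by positivity) hA1] at h2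
    have : ((2 * A * n ^ (s * K) : ℕ) : ℝ) < ((2 ^ n : ℕ) : ℝ) := by
      push_cast
      nlinarith
    exact_mod_cast this
  have h5 : ∑ k ∈ Iic s, (n - 1).choose k ≤ (s + 1) * n ^ s := by
    calc ∑ k ∈ Iic s, (n - 1).choose k ≤ ∑ k ∈ Iic s, n ^ s := by
          refine Finset.sum_le_sum fun k hk => ?_
          calc (n - 1).choose k ≤ (n - 1) ^ k := Nat.choose_le_pow _ _
            _ ≤ n ^ k := Nat.pow_le_pow_left (by omega) _
            _ ≤ n ^ s := Nat.pow_le_pow_right (by omega) (Finset.mem_Iic.1 hk)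
      _ = (s + 1) * n ^ s := by rw [Finset.sum_const, Nat.card_Iic, smul_eq_mul]
  have h6 : (∑ k ∈ Iic s, (n - 1).choose k) ^ K ≤ (s + 1) ^ K * n ^ (s * K) := by
    refine (Nat.pow_le_pow_left h5 _).trans (le_of_eq ?_)
    rw [mul_pow, ← pow_mul]
  have h7 : 2 ^ (2 ^ K) * (∑ k ∈ Iic s, (n - 1).choose k) ^ K ≤ A * n ^ (s * K) := by
    rw [hA, mul_assoc]
    exact Nat.mul_le_mul_left _ h6
  have h8 : 2 ^ n = 2 * 2 ^ (n - 1) := by
    rw [← pow_succ']
    congr 1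
    omega
  have h9 : 2 * A * n ^ (s * K) = 2 * (A * n ^ (s * K)) := Nat.mul_assoc _ _ _
  omega

end Pool.Agent.TH684.LB
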